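import Pool.Agent.Helper88.GU.St

/-!
# Project GU2 (MP_b1e6de_al), module XF: no double points
-/

set_option autoImplicit false

namespace Pool.Agent.Helper84.GU2

open Polynomial
open Pool.Agent.Helper91.GU Pool.Agent.Helper88.GU

universe u

theorem hXF (hVD : StVD.{u}) (hVE : StVE.{u}) (hVF : StVF.{u}) (hXD : StXD.{u}) :
    StXF.{u} := by
  intro R A _ _ _ _ _ _ G m x e hG s₀ Nh s hH hN v₀ c' hUm hf hht
  obtain ⟨f, hfI, hf0⟩ := hf
  obtain ⟨hmul, -⟩ := hVD A G
  obtain ⟨-, hDf, -⟩ := hXD R A G m x e hG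
  -- the ideal is the unit ideal
  have htop : Ideal.span (Set.range (fun j => C (c' j)) ∪ Set.range (fun j => dl G (c' j))) =
      (⊤ : Ideal A[X]) := by
    by_contra hne
    obtain ⟨P, hPmax, hKP⟩ := Ideal.exists_le_maximal _ hne
    have hP : P.IsPrime := hPmax.isPrime
    have hC : ∀ j, C (c' j) ∈ P := fun j =>
      hKP (Ideal.subset_span (Or.inl ⟨j, rfl⟩))
    have hD : ∀ j, dl G (c' j) ∈ P := fun j =>
      hKP (Ideal.subset_span (Or.inr ⟨j, rfl⟩))
    have h1P : (1 : A[X]) ∉ P := fun h => hP.ne_top ((Ideal.eq_top_iff_one P).2 h)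
    -- `Γ c'_j ∈ P`
    have hΓ : ∀ j, G.Γ (c' j) ∈ P := by
      intro j
      have h := hmul (c' j)
      have h2 : G.Γ (c' j) = (X - C 1) * dl G (c' j) + C (c' j) := by
        rw [h]; ring
      rw [h2]
      exact P.add_mem (P.mul_mem_left _ (hD j)) (hC j)
    -- everything of `idl c'` maps into `P` under `C`
    have hidl : ∀ g ∈ idl c', C g ∈ P := by
      intro g hg
      have hle : idl c' ≤ P.comap C := by
        rw [idl, Ideal.span_le]
        rintro _ ⟨j, rfl⟩
        exact hC j
      exact hle hg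
    -- some `C x_l ∉ P`
    have hx : ∃ l, C (x l) ∉ P := by
      by_contra hcon
      push Not at hcon
      have hle : Ideal.span (Set.range x) ≤ P.comap C := by
        rw [Ideal.span_le]
        rintro _ ⟨l, rfl⟩
        exact hcon l
      have h1 : C (f - (G.Γ f).coeff 0) ∈ P := hle (hDf f)
      have h2 : C f ∈ P := hidl f hfI
      rw [hf0] at h1
      have h3 : (1 : A[X]) = C f - C (f - 1) := by
        rw [map_sub, map_one]; ring
      exact h1P (h3 ▸ P.sub_mem h2 h1)
    obtain ⟨l, hl⟩ := hVE R A G m x e hG P hP hx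
    -- unimodularity
    obtain ⟨y, hy⟩ := hUm
    have hy' : v₀ * y (Sum.inl ()) + ∑ j, c' j * y (Sum.inr j) = 1 := by
      have h := hy
      simp only [dotProduct, Fintype.sum_sum_type, row, Sum.elim_inl, Sum.elim_inr,
        Finset.univ_unique, Finset.sum_singleton] at h
      exact h
    have hv : C v₀ ∉ P := by
      intro hv
      have h := congrArg (C : A →+* A[X]) hy'
      rw [map_add, map_mul, map_sum, map_one] at h
      apply h1P
      rw [← h]
      refine P.add_mem (P.mul_mem_right _ hv) (P.sum_mem fun j _ => ?_)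
      rw [map_mul]
      exact P.mul_mem_right _ (hC j)
    have hΓv : G.Γ v₀ ∉ P := by
      intro hv
      have h := congrArg G.Γ hy'
      rw [map_add, map_mul, map_sum, map_one] at h
      apply h1P
      rw [← h]
      refine P.add_mem (P.mul_mem_right _ hv) (P.sum_mem fun j _ => ?_)
      rw [map_mul]
      exact P.mul_mem_right _ (hΓ j)
    obtain ⟨ha, hb⟩ := hht P hP ⟨hv, hΓv, l, hl⟩ (fun j => ⟨hC j, hD j⟩)
    have hH' := hVF R A s₀ Nh hH
    have halg : algebraMap R A[X] s₀ = C (algebraMap R A s₀) := Polynomial.algebraMap_apply s₀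
    by_cases hs : C (algebraMap R A s₀) ∈ P
    · have h1 := hb hs
      have h2 := hH'.le P hP
      have h3 := h1.trans h2
      have h4 : 2 * (s + 1) + 1 ≤ Nh + 1 := by exact_mod_cast h3
      omega
    · have h2 := hH'.lt P hP (by rw [halg]; exact hs)
      have h3 := lt_of_le_of_lt ha h2
      have h4 : 2 * (s + 1) < Nh + 1 := by exact_mod_cast h3
      omega
  refine ⟨0, ?_⟩
  rw [htop]
  exact Submodule.mem_top

end Pool.Agent.Helper84.GU2
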